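import Pool.Agent.Helper79.AL.St2
import Pool.Agent.Helper45.OS.M_TSU
import Pool.Agent.Helper47.OS.M_STL
import Pool.Agent.Helper8.OS.M_HEC
import Pool.Agent.Helper39.OS.M_MZZ
import Pool.Agent.Helper94.YF.M_RAT

/-!
# Project AL (MP_2b6189_al), module TOU: the tournament lemma
-/

set_option autoImplicit false

namespace Pool.Agent.Helper1.AL

open Matrix ComplexConjugate Pool.Agent.Helper94.YG
open Pool.Agent.Helper94.YF hiding StORB
open Pool.Agent.Helper89.OS Pool.Agent.Helper89.OC Pool.Agent.Helper79.AL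

/-- the relation `s v = - v` on `t = 1` -/
theorem vp_rel {I : Type} [Fintype I] [DecidableEq I] {q : ℕ} (X : PD I q 1) (k : I)
    (ht : X.t k = 1) : ∑ j, X.s k j * (vp X j : ℂ) = -(vp X k : ℂ) := by
  classical
  have hinj : ∀ c, Function.Injective (X.pi c) := by
    intro c i j h
    have h1 := congrArg (X.pi c⁻¹) h
    rwa [← X.pi_mul, ← X.pi_mul, inv_mul_cancel, X.pi_one, X.pi_one] at h1
  have H := Helper8.OS.hHEC I q X (fun i => if i = X.o then 1 else 0)
    (by
      intro c i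
      have : X.pi c i = X.o ↔ i = X.o := by
        constructor
        · intro h
          apply hinj c
          rw [h, X.pi_o]
        · intro h
          rw [h, X.pi_o]
      simp only [this])
    (by
      intro i hi
      by_cases h : i = X.o
      · rw [h, X.t_o]
      · simp [h] at hi) k
  simp only [mul_ite, mul_one, mul_zero, Finset.sum_ite_eq', Finset.mem_univ, if_true, X.s_o, ht]
    at H
  have e1 : ∑ j, X.s k j * (vp X j : ℂ) =
      (q : ℂ) * X.y k - ∑ j, (if X.t j = 1 then X.s k j * (X.y j : ℂ) else 0) := by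
    have : ∀ j, X.s k j * (vp X j : ℂ) = (if j = X.o then (q : ℂ) * X.s k j else 0) -
        (if X.t j = 1 then X.s k j * (X.y j : ℂ) else 0) := by
      intro j
      unfold vp
      push_cast
      split_ifs <;> push_cast <;> ring
    rw [Finset.sum_congr rfl fun j _ => this j, Finset.sum_sub_distrib]
    simp [X.s_o]
  rw [e1, H]
  unfold vp
  by_cases h1 : k = X.o
  · subst h1
    simp [X.t_o]
    ring
  · simp [h1, ht]
    ring

/-- module TOU -/
theorem hTOU : StTOU := by
  classical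
  intro hFCA hFCB hORB I _ _ Z p q _ _ b b' X X' Q Q' N N' a w a' w' e e' A A' G G' hbb hqA hpA hFx
  by_contra hcon
  push Not at hcon
  obtain ⟨⟨i0, hi0, hy0⟩, ⟨i1, hi1, hy1⟩⟩ := hcon
  have F := hFCA I Z
  have lk := G.lq.lk
  have lk' := G'.lq.lk
  have hb2 := lk.idp.idem
  have hb2' := lk'.idp.idem
  have hbb' : b' * b = 0 := by rw [mul_comm]; exact hbb
  have hoo : X'.o = X.o := by rw [lk.o, lk'.o]
  have hp := X.prime
  have hq := X'.prime
  -- (1)
  have hsv : ∀ k, ∑ j, X'.s k j * (vp X j : ℂ) = (q : ℂ) * (vp X k : ℂ) := by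
    intro k
    have h1 := congrFun hFx.1 k
    simp only [Matrix.mulVec, dotProduct] at h1
    rw [← h1, Finset.mul_sum]
    refine Finset.sum_congr rfl fun j _ => ?_
    rw [lk'.s]
    ring
  have hvt : ∀ k, vp X k ≠ 0 → X'.t k = 1 := by
    intro k hk
    rw [lk'.t]
    apply hFx.2 k
    simpa using hk
  have hsum : ((q : ℂ) + 1) * ∑ k, (vp X k : ℂ) * (vp X' k : ℂ) = 0 := by
    have e1 : (q : ℂ) * ∑ k, (vp X k : ℂ) * (vp X' k : ℂ) =
        ∑ k, (vp X k : ℂ) * -(vp X' k : ℂ) := by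
      calc (q : ℂ) * ∑ k, (vp X k : ℂ) * (vp X' k : ℂ)
          = ∑ k, (∑ j, X'.s k j * (vp X j : ℂ)) * (vp X' k : ℂ) := by
            rw [Finset.mul_sum]
            refine Finset.sum_congr rfl fun k _ => ?_
            rw [hsv k]
            ring
        _ = ∑ j, (vp X j : ℂ) * ∑ k, X'.s j k * (vp X' k : ℂ) := by
            simp only [Finset.sum_mul, Finset.mul_sum]
            rw [Finset.sum_comm]
            refine Finset.sum_congr rfl fun j _ => Finset.sum_congr rfl fun k _ => ?_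
            rw [X'.s_symm k j]
            ring
        _ = ∑ k, (vp X k : ℂ) * -(vp X' k : ℂ) := by
            refine Finset.sum_congr rfl fun k _ => ?_
            by_cases hk : vp X k = 0
            · simp [hk]
            · rw [vp_rel X' k (hvt k hk)]
    have e2 : ∑ k, (vp X k : ℂ) * -(vp X' k : ℂ) = -∑ k, (vp X k : ℂ) * (vp X' k : ℂ) := by
      rw [← Finset.sum_neg_distrib]
      refine Finset.sum_congr rfl fun k _ => ?_
      ring
    rw [e2] at e1
    linear_combination e1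
  have hsum0 : ∑ k, vp X k * vp X' k = 0 := by
    have h1 : ((q : ℂ) + 1) ≠ 0 := by exact_mod_cast Nat.succ_ne_zero q
    have h2 := (mul_eq_zero.mp hsum).resolve_left h1
    exact_mod_cast h2
  -- (2)
  have hyt : ∀ k, X'.y k ≠ 0 → X.t k = 1 := by
    intro k hk
    have h1 : Z.rho (s2 b') k Z.o ≠ 0 := by
      intro h0
      have h2 := X'.s_o k
      rw [lk'.s, lk'.o] at h2
      simp only [h0, mul_zero] at h2
      exact hk (by exact_mod_cast h2.symm)
    have h2 := F.supp b b' hb2 hb2' hbb k Z.o h1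
    rw [lk.t, h2, ← lk.t, ← lk.o, X.t_o]
  have hyt' : ∀ k, X.y k ≠ 0 → X'.t k = 1 := by
    intro k hk
    have h1 : Z.rho (s2 b) k Z.o ≠ 0 := by
      intro h0
      have h2 := X.s_o k
      rw [lk.s, lk.o] at h2
      simp only [h0, mul_zero] at h2
      exact hk (by exact_mod_cast h2.symm)
    have h2 := F.supp b' b hb2' hb2 hbb' k Z.o h1
    rw [lk'.t, h2, ← lk'.t, ← lk'.o, X'.t_o]
  have hMZ := Helper39.OS.hMZZ I p X
  have hMZ' := Helper39.OS.hMZZ I q X'
  have hg2 : 2 ≤ gX X := hMZ.2.2.2.2.1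
  have hg2' : 2 ≤ gX X' := hMZ'.2.2.2.2.1
  obtain ⟨M, hM⟩ : ∃ M : Finset I, ∀ k, k ∈ M ↔ k ≠ X.o ∧ X.y k ≠ 0 ∧ X'.y k ≠ 0 :=
    ⟨Finset.univ.filter fun k => k ≠ X.o ∧ X.y k ≠ 0 ∧ X'.y k ≠ 0, fun k => by simp⟩
  have hvo : vp X X.o = gX X := by
    unfold vp gX
    simp [X.t_o]
  have hvo' : vp X' X.o = gX X' := by
    rw [← hoo]
    unfold vp gX
    simp [X'.t_o]
  have h2 : gX X * gX X' + ∑ k ∈ M, X.y k * X'.y k = 0 := by
    rw [← hsum0, ← Finset.add_sum_erase Finset.univ _ (Finset.mem_univ X.o), hvo, hvo']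
    congr 1
    have hsub : M ⊆ Finset.univ.erase X.o := by
      intro k hk
      rw [Finset.mem_erase]
      exact ⟨((hM k).mp hk).1, Finset.mem_univ k⟩
    rw [← Finset.sum_subset hsub]
    · refine Finset.sum_congr rfl fun k hk => ?_
      obtain ⟨h1, h2, h3⟩ := (hM k).mp hk
      have h1' : k ≠ X'.o := by rw [hoo]; exact h1
      unfold vp
      simp [h1, h1', hyt k h3, hyt' k h2]
    · intro k hk hkM
      have h1 : k ≠ X.o := (Finset.mem_erase.mp hk).1
      have h1' : k ≠ X'.o := by rw [hoo]; exact h1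
      have h3 : X.y k = 0 ∨ X'.y k = 0 := by
        by_contra h
        push Not at h
        exact hkM ((hM k).mpr ⟨h1, h.1, h.2⟩)
      unfold vp
      rcases h3 with h3 | h3
      · simp [h1, h3]
      · simp [h1', h3]
  -- (3)
  have hinv : ∀ c i, X'.y (X.pi c i) = X'.y i := by
    intro c i
    obtain ⟨u, hu1, hu2⟩ := G.lq.pi c
    obtain ⟨π, -, hπ, hπo, -, -, -, hπ2, -⟩ := F.perm u
    have hππ : ∀ i, π i = X.pi c i := by
      intro i
      have h1 := hu2 i (X.pi c i)
      rw [hπ i (X.pi c i)] at h1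
      by_contra hne
      rw [if_neg (fun h => hne h.symm), if_pos rfl] at h1
      exact zero_ne_one h1
    have hub : ((u : ZMod Z.L) - 1) * b' = 0 := by
      have : ((u : ZMod Z.L) - 1) * b' =
          ((u : ZMod Z.L) - 1) * (1 - b) * b' + ((u : ZMod Z.L) - 1) * (b * b') := by ring
      rw [this, hu1, hbb]
      ring
    have h1 := hπ2 b' hb2' hub i Z.o
    rw [(hπo Z.o).mpr rfl, hππ i] at h1
    have h2 := X'.s_o (X.pi c i)
    have h3 := X'.s_o i
    rw [lk'.s, lk'.o] at h2 h3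
    simp only at h2 h3
    rw [h1, h3] at h2
    exact_mod_cast h2.symm
  have hinv' : ∀ c i, X.y (X'.pi c i) = X.y i := by
    intro c i
    obtain ⟨u, hu1, hu2⟩ := G'.lq.pi c
    obtain ⟨π, -, hπ, hπo, -, -, -, hπ2, -⟩ := F.perm u
    have hππ : ∀ i, π i = X'.pi c i := by
      intro i
      have h1 := hu2 i (X'.pi c i)
      rw [hπ i (X'.pi c i)] at h1
      by_contra hne
      rw [if_neg (fun h => hne h.symm), if_pos rfl] at h1
      exact zero_ne_one h1
    have hub : ((u : ZMod Z.L) - 1) * b = 0 := by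
      have : ((u : ZMod Z.L) - 1) * b =
          ((u : ZMod Z.L) - 1) * (1 - b') * b + ((u : ZMod Z.L) - 1) * (b' * b) := by ring
      rw [this, hu1, hbb']
      ring
    have h1 := hπ2 b hb2 hub i Z.o
    rw [(hπo Z.o).mpr rfl, hππ i] at h1
    have h2 := X.s_o (X'.pi c i)
    have h3 := X.s_o i
    rw [lk.s, lk.o] at h2 h3
    simp only at h2 h3
    rw [h1, h3] at h2
    exact_mod_cast h2.symm
  have hzero : ∀ k ∈ Orb X w, X'.y k = 0 := by
    intro k hk
    unfold Orb at hk hi0
    simp only [Finset.mem_filter, Finset.mem_univ, true_and] at hk hi0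
    obtain ⟨c, rfl⟩ := hk
    obtain ⟨c0, rfl⟩ := hi0
    rw [hinv] at hy0 ⊢
    exact hy0
  have hzero' : ∀ k ∈ Orb X' w', X.y k = 0 := by
    intro k hk
    unfold Orb at hk hi1
    simp only [Finset.mem_filter, Finset.mem_univ, true_and] at hk hi1
    obtain ⟨c, rfl⟩ := hk
    obtain ⟨c0, rfl⟩ := hi1
    rw [hinv'] at hy1 ⊢
    exact hy1
  have hdd : X.d = X'.d := by rw [lk.d, lk'.d]
  have hdiv : ∀ k ∈ M, gX X ∣ X.y k := by
    intro k hk
    obtain ⟨h1, h2, h3⟩ := (hM k).mp hk
    have ht := hyt k h3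
    have hKs : k ∈ Ks X := by
      unfold Ks
      simp [h1, h2, ht]
    have hna : k ∉ Orb X a := by
      intro hka
      have h4 := (hORB I p X).d a k hka
      apply G'.gam.blk.d_nd k h3
      rw [← hdd, h4, G.dA]
      exact hqA
    have hKp : k ∈ Kp X a := by
      unfold Kp
      rw [Finset.mem_filter]
      exact ⟨hKs, hna⟩
    have hnw : k ∉ Orb X w := fun h => h3 (hzero k h)
    have h5 := G.sng k hKp hnw
    have h6 := (Helper45.OS.hTSU Helper47.OS.hSTL Helper8.OS.hHEC Helper39.OS.hMZZ hRAT' I p X Q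
      G.gam.blk k h2 ht h1).2
    rw [h5, Nat.cast_one, one_mul] at h6
    exact h6
  have hdiv' : ∀ k ∈ M, gX X' ∣ X'.y k := by
    intro k hk
    obtain ⟨h1, h2, h3⟩ := (hM k).mp hk
    have h1' : k ≠ X'.o := by rw [hoo]; exact h1
    have ht := hyt' k h2
    have hKs : k ∈ Ks X' := by
      unfold Ks
      simp [h1', h3, ht]
    have hna : k ∉ Orb X' a' := by
      intro hka
      have h4 := (hORB I q X').d a' k hka
      apply G.gam.blk.d_nd k h2
      rw [hdd, h4, G'.dA]
      exact hpA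
    have hKp : k ∈ Kp X' a' := by
      unfold Kp
      rw [Finset.mem_filter]
      exact ⟨hKs, hna⟩
    have hnw : k ∉ Orb X' w' := fun h => h2 (hzero' k h)
    have h5 := G'.sng k hKp hnw
    have h6 := (Helper45.OS.hTSU Helper47.OS.hSTL Helper8.OS.hHEC Helper39.OS.hMZZ hRAT' I q X' Q'
      G'.gam.blk k h3 ht h1').2
    rw [h5, Nat.cast_one, one_mul] at h6
    exact h6
  -- the parity
  obtain ⟨C, hC⟩ : ∃ C : I → ℤ, ∀ k, C k = (X.y k / gX X) * (X'.y k / gX X') :=
    ⟨_, fun k => rfl⟩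
  have hCk : ∀ k ∈ M, X.y k * X'.y k = gX X * gX X' * C k := by
    intro k hk
    obtain ⟨r, hr⟩ := hdiv k hk
    obtain ⟨r', hr'⟩ := hdiv' k hk
    have n1 : gX X ≠ 0 := by omega
    have n2 : gX X' ≠ 0 := by omega
    rw [hC, hr, hr', Int.mul_ediv_cancel_left _ n1, Int.mul_ediv_cancel_left _ n2]
    ring
  have hsumC : ∑ k ∈ M, C k = -1 := by
    rw [Finset.sum_congr rfl hCk, ← Finset.mul_sum] at h2
    have h3 : gX X * gX X' * (1 + ∑ k ∈ M, C k) = 0 := by linarith
    have n1 : gX X * gX X' ≠ 0 := mul_ne_zero (by omega) (by omega)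
    have h4 := (mul_eq_zero.mp h3).resolve_left n1
    linarith
  have hstst : X'.st = X.st := by rw [lk.st, lk'.st]
  have hst : ∀ k ∈ M, X.st k ∈ M := by
    intro k hk
    obtain ⟨h1, h2, h3⟩ := (hM k).mp hk
    refine (hM _).mpr ⟨?_, ?_, ?_⟩
    · intro h
      apply h1
      have := congrArg X.st h
      rwa [X.st_st, X.st_o] at this
    · rw [X.y_st]; exact h2
    · rw [← hstst, X'.y_st]; exact h3
  have hCst : ∀ k, C (X.st k) = C k := by
    intro k
    rw [hC, hC, X.y_st, ← hstst, X'.y_st]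
  have heven : ∑ k ∈ M, (C k : ZMod 2) = 0 := by
    refine Finset.sum_involution (fun k _ => X.st k) ?_ ?_ ?_ ?_
    · intro k _
      rw [hCst]
      exact CharTwo.add_self_eq_zero _
    · intro k hk _ hst'
      exact ((hM k).mp hk).1 (X.nsd k hst')
    · intro k hk
      exact hst k hk
    · intro k _
      exact X.st_st k
  have hfin : ((∑ k ∈ M, C k : ℤ) : ZMod 2) = 0 := by
    push_cast
    exact heven
  rw [hsumC] at hfin
  revert hfin
  decide

end Pool.Agent.Helper1.AL
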